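import Mathlib
import Pool.Agent.Lib.MP_9405a7_co.Det

/-! A 5-configuration of K(3,3) plus two edges that does not split although its five-invariant is
a product of two nonzero polynomials of degree at most one in every variable. -/

namespace Pool.Agent.Results.MP_9405a7_co.Factored

open MvPolynomial

/-- A finite graph, loops and multiple edges allowed: vertices `Fin (n+1)`, edges `Fin m`,
the edge `e` being oriented from `src e` to `tgt e`. -/
structure Graph (n m : ℕ) where
  src : Fin m → Fin (n + 1)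
  tgt : Fin m → Fin (n + 1)

variable {n m : ℕ}

/-- The vertex-edge incidence matrix with the row of the vertex `0` deleted. -/
noncomputable def Graph.inc (G : Graph n m) : Matrix (Fin n) (Fin m) (MvPolynomial (Fin m) ℤ) :=
  Matrix.of fun v e =>
    (if G.src e = v.succ then 1 else 0) - (if G.tgt e = v.succ then 1 else 0)

/-- The matrix `M_G` with blocks `Λ = diag (α_e)`, the transposed incidence matrix,
minus the incidence matrix, and `0`; the first `m` rows and columns are indexed by the edges. -/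
noncomputable def Graph.M (G : Graph n m) :
    Matrix (Fin (m + n)) (Fin (m + n)) (MvPolynomial (Fin m) ℤ) :=
  Matrix.reindex finSumFinEquiv finSumFinEquiv
    (Matrix.fromBlocks (Matrix.diagonal X) G.inc.transpose (-G.inc) 0)

/-- The determinant of `A` with the rows in `I` and the columns in `J` removed, the remaining
rows and columns keeping their order (junk value `0` when the sizes differ). -/
noncomputable def minor {N : ℕ} {R : Type} [CommRing R] (A : Matrix (Fin N) (Fin N) R)
    (I J : Finset (Fin N)) : R :=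
  if h : Jᶜ.card = Iᶜ.card then
    (A.submatrix (Iᶜ.orderEmbOfFin rfl) (Jᶜ.orderEmbOfFin h)).det
  else 0

/-- The Dodgson polynomial: `det M_G(I,J)` with `α_e = 0` for `e ∈ K`. -/
noncomputable def Graph.dodgson (G : Graph n m) (I J K : Finset (Fin m)) :
    MvPolynomial (Fin m) ℤ :=
  bind₁ (fun e => if e ∈ K then 0 else X e)
    (minor G.M (I.map (Fin.castAddEmb n)) (J.map (Fin.castAddEmb n)))

/-- `S` splits in `G`: one of the Dodgsons of `D_S` is the zero polynomial. -/
def Graph.Splits (G : Graph n m) (S : Finset (Fin m)) : Prop :=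
  ∃ I J K : Finset (Fin m), I ∪ J ∪ K = S ∧ Disjoint K (I ∪ J) ∧
    ((I.card = 2 ∧ J.card = 2 ∧ I ∩ J = ∅ ∧ K.card = 1) ∨
      (I.card = 3 ∧ J.card = 3 ∧ (I ∩ J).card = 1 ∧ K = ∅)) ∧
    G.dodgson I J K = 0

/-- The five-invariant of the edges `e 0, …, e 4` (one of its two signs). -/
noncomputable def Graph.fiveInv (G : Graph n m) (e : Fin 5 → Fin m) : MvPolynomial (Fin m) ℤ :=
  G.dodgson {e 0, e 1} {e 2, e 3} {e 4} * G.dodgson {e 0, e 2, e 4} {e 1, e 3, e 4} ∅ -
    G.dodgson {e 0, e 2} {e 1, e 3} {e 4} * G.dodgson {e 0, e 1, e 4} {e 2, e 3, e 4} ∅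

/-- The five-invariant, read in the polynomial ring over `ℤ` in the variables of the edges outside
the configuration, is nonzero and each of its irreducible factors has degree at most one in every
variable. -/
def Graph.NonzeroLinFactorable (G : Graph n m) (e : Fin 5 → Fin m) : Prop :=
  ∃ P : MvPolynomial {f : Fin m // f ∉ Finset.univ.image e} ℤ,
    rename Subtype.val P = G.fiveInv e ∧ P ≠ 0 ∧
      ∀ q, Irreducible q → q ∣ P → ∀ f, q.degreeOf f ≤ 1

/-- The complete bipartite graph with parts `{0,1,5}` and `{2,3,4}` with the two extra edges `01`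
and `23`; its edges, in order, are `01, 02, 13, 23, 45, 03, 04, 12, 14, 25, 35`. -/
def K33pp : Graph 5 11 where
  src := ![0, 0, 1, 2, 4, 0, 0, 1, 1, 2, 3]
  tgt := ![1, 2, 3, 3, 5, 3, 4, 2, 4, 5, 5]

/-- The first five edges of `K33pp`: the 4-cycle `0-1-3-2-0` and the edge `45`. -/
def conf : Fin 5 → Fin 11 := ![0, 1, 2, 3, 4]

section proof

open Pool.Agent.Lib.MP_9405a7_co

def cst (z : ℤ) : SP := if z = 0 then [] else [(z, [])]

def incZ (v e : ℕ) : ℤ :=
  (if [0, 0, 1, 2, 4, 0, 0, 1, 1, 2, 3].getD e 0 = v then 1 else 0) -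
    (if [1, 2, 3, 3, 5, 3, 4, 2, 4, 5, 5].getD e 0 = v then 1 else 0)

def symM (K : List ℕ) (r c : ℕ) : SP :=
  if r < 11 then
    (if c < 11 then (if r = c ∧ r ∉ K then [(1, [r])] else []) else cst (incZ (c - 10) r))
  else (if c < 11 then cst (-incZ (r - 10) c) else [])

noncomputable def XX (k : ℕ) : MvPolynomial (Fin 11) ℤ := if h : k < 11 then X ⟨k, h⟩ else 0

def lst {N : ℕ} (s : Finset (Fin N)) : List ℕ :=
  ((List.finRange N).filter (· ∈ s)).map Fin.val

lemma ev_cst {R : Type*} [CommRing R] (x : ℕ → R) (z : ℤ) : ev x (cst z) = z := by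
  unfold cst
  split_ifs with h
  · simp [ev, h]
  · simp [ev, evV]

lemma inc_eq (v : Fin 5) (e : Fin 11) :
    K33pp.inc v e = ((incZ (v + 1) e : ℤ) : MvPolynomial (Fin 11) ℤ) := by
  have h1 : ∀ (v : Fin 5) (e : Fin 11), (K33pp.src e = v.succ) ↔
      [0, 0, 1, 2, 4, 0, 0, 1, 1, 2, 3].getD e 0 = (v : ℕ) + 1 := by decide
  have h2 : ∀ (v : Fin 5) (e : Fin 11), (K33pp.tgt e = v.succ) ↔
      [1, 2, 3, 3, 5, 3, 4, 2, 4, 5, 5].getD e 0 = (v : ℕ) + 1 := by decide
  simp only [Graph.inc, Matrix.of_apply, h1, h2, incZ]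
  split_ifs <;> simp

lemma mem_lst {N : ℕ} (s : Finset (Fin N)) (i : Fin N) : (i : ℕ) ∈ lst s ↔ i ∈ s := by
  simp [lst, Fin.val_inj]

lemma entry_eq (K : Finset (Fin 11)) (i j : Fin (11 + 5)) :
    bind₁ (fun e => if e ∈ K then 0 else X e) (K33pp.M i j) = ev XX (symM (lst K) i j) := by
  obtain ⟨i, rfl⟩ := finSumFinEquiv.surjective i
  obtain ⟨j, rfl⟩ := finSumFinEquiv.surjective j
  simp only [Graph.M, Matrix.reindex_apply, Matrix.submatrix_apply, Equiv.symm_apply_apply]
  rcases i with i | i <;> rcases j with j | j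
  · simp only [Matrix.fromBlocks_apply₁₁, finSumFinEquiv_apply_left, Fin.val_castAdd, symM,
      i.2, j.2, if_true, mem_lst, Fin.val_inj]
    by_cases hij : i = j
    · subst hij
      by_cases hK : i ∈ K <;> simp [hK, ev, evV, XX]
    · simp [hij, ev]
  · have : ¬ (11 + (j : ℕ) < 11) := by omega
    have h8 : 11 + (j : ℕ) - 10 = j + 1 := by omega
    simp only [Matrix.fromBlocks_apply₁₂, finSumFinEquiv_apply_left, finSumFinEquiv_apply_right,
      Fin.val_castAdd, Fin.val_natAdd, symM, i.2, this, if_true, if_false, ev_cst, h8,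
      Matrix.transpose_apply, inc_eq, map_intCast]
  · have : ¬ (11 + (i : ℕ) < 11) := by omega
    have h8 : 11 + (i : ℕ) - 10 = i + 1 := by omega
    simp only [Matrix.fromBlocks_apply₂₁, finSumFinEquiv_apply_left, finSumFinEquiv_apply_right,
      Fin.val_castAdd, Fin.val_natAdd, symM, j.2, this, if_true, if_false, ev_cst, h8,
      Matrix.neg_apply, inc_eq, map_neg, map_intCast, Int.cast_neg]
  · have h1 : ¬ (11 + (i : ℕ) < 11) := by omega
    have h2 : ¬ (11 + (j : ℕ) < 11) := by omega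
    simp only [Matrix.fromBlocks_apply₂₂, finSumFinEquiv_apply_right, Fin.val_natAdd, symM, h1, h2,
      if_false, ev, Matrix.zero_apply, map_zero]

lemma sort_eq {N : ℕ} (s : Finset (Fin N)) :
    s.sort = (List.finRange N).filter (· ∈ s) := by
  apply List.Perm.eq_of_pairwise' (r := (· ≤ ·))
  · exact Finset.pairwise_sort s _
  · exact ((List.pairwise_lt_finRange N).imp le_of_lt).filter _
  · apply (List.perm_ext_iff_of_nodup (Finset.sort_nodup _ _)
      ((List.nodup_finRange N).filter _)).2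
    intro a
    simp

lemma length_lst {N : ℕ} (s : Finset (Fin N)) : (lst s).length = s.card := by
  rw [lst, List.length_map, ← sort_eq, Finset.length_sort]

lemma orderEmb_val {N k : ℕ} (s : Finset (Fin N)) (h : s.card = k) (a : Fin k) :
    ((s.orderEmbOfFin h a : Fin N) : ℕ) = (lst s).getD a 0 := by
  have hl : (a : ℕ) < (lst s).length := by rw [length_lst, h]; exact a.2
  rw [Finset.orderEmbOfFin_apply, List.getD_eq_getElem _ _ hl]
  simp [lst, sort_eq]

def dodL (I J K : Finset (Fin 11)) : SP :=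
  detL (symM (lst K)) (lst (I.map (Fin.castAddEmb 5))ᶜ) (lst (J.map (Fin.castAddEmb 5))ᶜ)

lemma dodgson_eq (I J K : Finset (Fin 11)) (h : I.card = J.card) :
    K33pp.dodgson I J K = ev XX (dodL I J K) := by
  have hc : (J.map (Fin.castAddEmb 5))ᶜ.card = (I.map (Fin.castAddEmb 5))ᶜ.card := by
    simp [Finset.card_compl, h]
  rw [Graph.dodgson, minor, dif_pos hc, dodL,
    ev_detL XX _ _ _ _ (length_lst _) ((length_lst _).trans hc), AlgHom.map_det]
  congr 1
  ext a b : 2
  simp only [AlgHom.mapMatrix_apply, Matrix.map_apply, Matrix.submatrix_apply, Matrix.of_apply,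
    entry_eq, orderEmb_val]

def pt (k : ℕ) : ℤ := [0, 0, 0, 0, 0, 1, 3, 10, 37, 101, 509].getD k 0

lemma eval_evV (l : List ℕ) :
    eval (fun i : Fin 11 => pt i) (evV XX l) = evV pt l := by
  induction l with
  | nil => simp [evV]
  | cons v l ih =>
    simp only [evV, map_mul, ih]
    congr 1
    unfold XX
    split_ifs with h
    · simp
    · simp only [pt, map_zero]
      rw [List.getD_eq_default]
      simpa using h

lemma eval_ev (p : SP) : eval (fun i : Fin 11 => pt i) (ev XX p) = ev pt p := by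
  induction p with
  | nil => simp [ev]
  | cons a p ih => simp [ev, ih, eval_evV]

def SS : Finset (Fin 11) := {0, 1, 2, 3, 4}

lemma check2 : ∀ I ∈ SS.powersetCard 2, ∀ J ∈ SS.powersetCard 2, I ∩ J = ∅ →
    ev pt (dodL I J (SS \ (I ∪ J))) ≠ 0 := by
  decide +kernel

lemma check3 : ∀ I ∈ SS.powersetCard 3, ∀ J ∈ SS.powersetCard 3, (I ∩ J).card = 1 →
    ev pt (dodL I J ∅) ≠ 0 := by
  decide +kernel

lemma image_conf : Finset.univ.image conf = SS := by decide

lemma not_splits : ¬ K33pp.Splits (Finset.univ.image conf) := by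
  rw [image_conf]
  rintro ⟨I, J, K, hU, hD, hc, h0⟩
  have hI : I ⊆ SS := hU ▸ Finset.subset_union_left.trans Finset.subset_union_left
  have hJ : J ⊆ SS := hU ▸ Finset.subset_union_right.trans Finset.subset_union_left
  rcases hc with ⟨h1, h2, h3, -⟩ | ⟨h1, h2, h3, rfl⟩
  · have hK : K = SS \ (I ∪ J) := by
      rw [← hU, Finset.union_sdiff_cancel_left hD.symm]
    apply check2 I (Finset.mem_powersetCard.2 ⟨hI, h1⟩) J (Finset.mem_powersetCard.2 ⟨hJ, h2⟩) h3
    rw [← hK, ← eval_ev, ← dodgson_eq _ _ _ (h1.trans h2.symm), h0, map_zero]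
  · apply check3 I (Finset.mem_powersetCard.2 ⟨hI, h1⟩) J (Finset.mem_powersetCard.2 ⟨hJ, h2⟩) h3
    rw [← eval_ev, ← dodgson_eq _ _ _ (h1.trans h2.symm), h0, map_zero]

lemma five_eq : K33pp.fiveInv conf =
    (X 5 * X 7 * (X 6 + X 8) * (X 9 + X 10)) * (X 5 * X 8 * X 9 - X 6 * X 7 * X 10) := by
  have e1 : (dodL {conf 0, conf 1} {conf 2, conf 3} {conf 4}).Perm
      [(1, [6, 7, 8, 9]), (1, [6, 7, 8, 10]), (1, [5, 7, 8, 9]), (1, [6, 7, 9, 10]),
        (1, [7, 8, 9, 10])] := by decide +kernel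
  have e2 : (dodL {conf 0, conf 2, conf 4} {conf 1, conf 3, conf 4} ∅).Perm
      [(1, [5, 6, 9]), (1, [5, 6, 10]), (1, [5, 8, 9]), (1, [5, 8, 10])] := by decide +kernel
  have e3 : (dodL {conf 0, conf 2} {conf 1, conf 3} {conf 4}).Perm
      [(1, [5, 6, 7, 10]), (1, [5, 6, 8, 9]), (1, [5, 6, 8, 10]), (1, [5, 6, 9, 10]),
        (1, [5, 8, 9, 10])] := by decide +kernel
  have e4 : (dodL {conf 0, conf 1, conf 4} {conf 2, conf 3, conf 4} ∅).Perm
      [(1, [6, 7, 9]), (1, [6, 7, 10]), (1, [7, 8, 9]), (1, [7, 8, 10])] := by decide +kernel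
  have hp : ∀ {p q : SP}, p.Perm q → ev XX p = ev XX q := by
    intro p q h
    induction h with
    | nil => rfl
    | cons a _ ih => simp [ev, ih]
    | swap a b l => simp only [ev]; ring
    | trans _ _ ih1 ih2 => exact ih1.trans ih2
  rw [Graph.fiveInv, dodgson_eq _ _ _ (by decide), dodgson_eq _ _ _ (by decide),
    dodgson_eq _ _ _ (by decide), dodgson_eq _ _ _ (by decide), hp e1, hp e2, hp e3, hp e4]
  have x5 : XX 5 = X 5 := rfl
  have x6 : XX 6 = X 6 := rfl
  have x7 : XX 7 = X 7 := rfl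
  have x8 : XX 8 = X 8 := rfl
  have x9 : XX 9 = X 9 := rfl
  have x10 : XX 10 = X 10 := rfl
  simp only [ev, evV, x5, x6, x7, x8, x9, x10]
  push_cast
  ring

lemma deg3 {σ : Type} [DecidableEq σ] (a b c f : σ) (hab : a ≠ b) (hac : a ≠ c) (hbc : b ≠ c) :
    (X a * X b * X c : MvPolynomial σ ℤ).degreeOf f ≤ 1 := by
  refine (degreeOf_mul_le _ _ _).trans ?_
  refine (Nat.add_le_add_right (degreeOf_mul_le _ _ _) _).trans ?_
  simp only [degreeOf_X]
  split_ifs <;> simp_all

lemma deg_of_dvd {σ : Type} {q P : MvPolynomial σ ℤ} (h : q ∣ P) (hP : P ≠ 0) (f : σ)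
    (h1 : P.degreeOf f ≤ 1) : q.degreeOf f ≤ 1 := by
  obtain ⟨r, rfl⟩ := h
  rw [degreeOf_mul_eq (left_ne_zero_of_mul hP) (right_ne_zero_of_mul hP)] at h1
  omega

lemma deg1 {σ : Type} [DecidableEq σ] (a f : σ) : (X a : MvPolynomial σ ℤ).degreeOf f ≤ 1 := by
  rw [degreeOf_X]
  split_ifs <;> simp

end proof

theorem result : Function.Injective conf ∧ ¬ K33pp.Splits (Finset.univ.image conf) ∧
    K33pp.NonzeroLinFactorable conf ∧
    K33pp.fiveInv conf =
      (X 5 * X 7 * (X 6 + X 8) * (X 9 + X 10)) * (X 5 * X 8 * X 9 - X 6 * X 7 * X 10) := by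
  refine ⟨by decide, not_splits, ?_, five_eq⟩
  let a : {f : Fin 11 // f ∉ Finset.univ.image conf} := ⟨5, by decide⟩
  let b : {f : Fin 11 // f ∉ Finset.univ.image conf} := ⟨6, by decide⟩
  let c : {f : Fin 11 // f ∉ Finset.univ.image conf} := ⟨7, by decide⟩
  let d : {f : Fin 11 // f ∉ Finset.univ.image conf} := ⟨8, by decide⟩
  let e : {f : Fin 11 // f ∉ Finset.univ.image conf} := ⟨9, by decide⟩
  let g : {f : Fin 11 // f ∉ Finset.univ.image conf} := ⟨10, by decide⟩
  have hP0 : ((X a * X c * (X b + X d) * (X e + X g)) * (X a * X d * X e - X b * X c * X g) :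
      MvPolynomial _ ℤ) ≠ 0 := by
    intro h
    have := congrArg (eval fun f : {f : Fin 11 // f ∉ Finset.univ.image conf} => pt f.1) h
    simp [a, b, c, d, e, g, pt] at this
  refine ⟨_, ?_, hP0, ?_⟩
  · rw [five_eq]
    simp [a, b, c, d, e, g]
  · intro q hq hd f
    have hp : Prime q := hq.prime
    have n1 := left_ne_zero_of_mul hP0
    have n2 := left_ne_zero_of_mul n1
    have n3 := left_ne_zero_of_mul n2
    rcases hp.dvd_or_dvd hd with h | h
    · rcases hp.dvd_or_dvd h with h | h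
      · rcases hp.dvd_or_dvd h with h | h
        · rcases hp.dvd_or_dvd h with h | h
          · exact deg_of_dvd h (left_ne_zero_of_mul n3) f (deg1 _ _)
          · exact deg_of_dvd h (right_ne_zero_of_mul n3) f (deg1 _ _)
        · exact deg_of_dvd h (right_ne_zero_of_mul n2) f
            ((degreeOf_add_le _ _ _).trans (max_le (deg1 _ _) (deg1 _ _)))
      · exact deg_of_dvd h (right_ne_zero_of_mul n1) f
          ((degreeOf_add_le _ _ _).trans (max_le (deg1 _ _) (deg1 _ _)))
    · exact deg_of_dvd h (right_ne_zero_of_mul hP0) f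
        ((degreeOf_sub_le _ _ _).trans (max_le
          (deg3 _ _ _ _ (by decide) (by decide) (by decide))
          (deg3 _ _ _ _ (by decide) (by decide) (by decide))))

end Pool.Agent.Results.MP_9405a7_co.Factored
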